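import Pool.Agent.Helper41.LD7.Defs

/-!
# Project LD7, block NUM7: the numbers of a stage
-/

set_option autoImplicit false

namespace Pool.Agent.Helper76.LD7

open Pool.Agent.Helper41.LD7

theorem two_pow_ge {q : ℕ} (hq : 8 ≤ q) : 20 * (q + 1) ≤ 2 ^ q := by
  induction q, hq using Nat.le_induction with
  | base => norm_num
  | succ q hq ih =>
    rw [pow_succ]
    omega

theorem pow20_le {K : ℕ} (hK : 160 ≤ K) : K ^ 20 ≤ 2 ^ K := by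
  have h1 : 8 ≤ K / 20 := by omega
  have h2 : K ≤ 2 ^ (K / 20) := le_trans (by omega) (two_pow_ge h1)
  calc K ^ 20 ≤ (2 ^ (K / 20)) ^ 20 := Nat.pow_le_pow_left h2 20
    _ = 2 ^ (K / 20 * 20) := by rw [← pow_mul]
    _ ≤ 2 ^ K := Nat.pow_le_pow_right (by norm_num) (Nat.div_mul_le_self K 20)

theorem sq_le_two_pow {n : ℕ} (hn : 5 ≤ n) : n ^ 2 + 1 ≤ 2 ^ n := by
  induction n, hn using Nat.le_induction with
  | base => norm_num
  | succ n hn ih =>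
    rw [pow_succ 2 n]
    nlinarith

theorem four_sq_le {n : ℕ} (hn : 9 ≤ n) : 4 * n * (n + 1) ≤ 2 ^ n := by
  induction n, hn using Nat.le_induction with
  | base => norm_num
  | succ n hn ih =>
    rw [pow_succ 2 n]
    nlinarith

section

variable {F : Pm} {K : ℕ}

theorem Z_ge (F : Pm) : 10000 ≤ F.Z := by
  have hZ : F.Z = 1000 * (F.X + 1) * (F.C₂ + F.R + F.t * F.Gp + F.D' + 10) := rfl
  rw [hZ]
  calc 10000 = 1000 * (0 + 1) * (0 + 10) := by norm_num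
    _ ≤ 1000 * (F.X + 1) * (F.C₂ + F.R + F.t * F.Gp + F.D' + 10) :=
        Nat.mul_le_mul (Nat.mul_le_mul_left _ (by omega)) (by omega)

theorem num_K (hK : F.Big K) : 1000000000000 ≤ K := by
  have h1 := Z_ge F
  have h2 : F.Z ^ 4 ≤ K := hK
  have h3 : 10000 ^ 4 ≤ F.Z ^ 4 := Nat.pow_le_pow_left h1 4
  norm_num at h3
  omega

theorem num_Z (hK : F.Big K) : 1000 ≤ F.Z ∧ F.Z ^ 4 ≤ K ∧ F.Z ≤ K := by
  have h1 := Z_ge F
  have h2 : F.Z ^ 4 ≤ K := hK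
  have h3 : F.Z ^ 1 ≤ F.Z ^ 4 := Nat.pow_le_pow_right (by omega) (by norm_num)
  rw [pow_one] at h3
  exact ⟨by omega, h2, h3.trans h2⟩

theorem num_le (hF : F.Ok) : F.X + 1 ≤ F.Z ∧ F.d + 4 ≤ F.Z ∧ F.t ≤ F.Z ∧ F.D ≤ F.Z ∧ F.D' ≤ F.Z ∧ F.C₀ ≤ F.Z ∧ F.C₁ ≤ F.Z ∧ F.C₂ + 10 ≤ F.Z ∧ F.R ≤ F.Z ∧
    F.t * F.Gp ≤ F.Z ∧ (F.X + 1) * (F.X + F.d + 4) ≤ F.Z ∧ F.X * F.C₁ ≤ F.Z ∧ F.P ≤ F.Z ∧ F.Q ≤ F.Z ∧ F.P ≤ F.X ∧ F.Q ≤ F.X := by
  have ht : F.t = 2 * (F.d + 1) := rfl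
  have hD' : F.D' = F.D + 4 + F.X * (F.t * F.Gp) := rfl
  have hC0 : F.C₀ = 40 * F.t + F.D' + 10 := rfl
  have hC1 : F.C₁ = F.C₀ + 20 := rfl
  have hC2 : F.C₂ = F.C₁ + F.C₀ + 30 := rfl
  have hR : F.R = F.X * (F.C₁ + 20) + 1 := rfl
  have hZ : F.Z = 1000 * (F.X + 1) * (F.C₂ + F.R + F.t * F.Gp + F.D' + 10) := rfl
  set s := F.C₂ + F.R + F.t * F.Gp + F.D' + 10 with hs
  have h1 : (F.X + 1) * s ≤ F.Z := by
    rw [hZ]
    have : 1000 * (F.X + 1) * s = 1000 * ((F.X + 1) * s) := by ring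
    omega
  have h2 : s ≤ F.Z := le_trans (Nat.le_mul_of_pos_left s (Nat.succ_pos _)) h1
  have h3 : F.X + 1 ≤ F.Z := le_trans (Nat.le_mul_of_pos_right (F.X + 1) (by omega)) h1
  have hRX : F.X ≤ F.R := by
    have : F.X * 1 ≤ F.X * (F.C₁ + 20) := Nat.mul_le_mul_left _ (by omega)
    omega
  have h4 : (F.X + 1) * (F.X + F.d + 4) ≤ F.Z := le_trans (Nat.mul_le_mul_left _ (by omega)) h1
  have h5 : F.X * F.C₁ ≤ F.Z := le_trans (Nat.mul_le_mul (Nat.le_succ _) (by omega)) h1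
  have hP := hF.hPX
  have hQ := hF.hQX
  refine ⟨h3, by omega, by omega, by omega, by omega, by omega, by omega, by omega, by omega, by omega, h4, h5,
    by omega, by omega, hP, hQ⟩

theorem num_E (hF : F.Ok) (K : ℕ) : 4 * K ≤ F.E K ∧ F.E K ≤ F.Z * K ∧ K * (F.d + 1) ≤ F.E K ∧ K * F.t ≤ 2 * F.E K := by
  have hE : F.E K = (F.d + 4) * K := rfl
  have ht : F.t = 2 * (F.d + 1) := rfl
  rw [hE, ht]
  refine ⟨Nat.mul_le_mul_right K (by omega), Nat.mul_le_mul_right K (num_le hF).2.1, ?_, ?_⟩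
  · rw [mul_comm K]
    exact Nat.mul_le_mul_right K (by omega)
  · have : K * (2 * (F.d + 1)) = 2 * ((F.d + 1) * K) := by ring
    rw [this]
    exact Nat.mul_le_mul_left 2 (Nat.mul_le_mul_right K (by omega))

/-- everything linear in `Z E` is small against `K ^ 2` -/
theorem num_ZE (hF : F.Ok) (hK : F.Big K) : 1000000 * (F.Z * F.E K) ≤ K ^ 2 := by
  have h1 := Z_ge F
  have h2 : F.Z ^ 4 ≤ K := hK
  have h3 := (num_E hF K).2.1
  have h4 : 1000000 * F.Z ^ 2 ≤ F.Z ^ 4 := by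
    have : 1000000 ≤ F.Z ^ 2 := le_trans (by norm_num) (Nat.pow_le_pow_left h1 2)
    calc 1000000 * F.Z ^ 2 ≤ F.Z ^ 2 * F.Z ^ 2 := Nat.mul_le_mul_right _ this
      _ = F.Z ^ 4 := by ring
  calc 1000000 * (F.Z * F.E K) ≤ 1000000 * (F.Z * (F.Z * K)) :=
        Nat.mul_le_mul_left _ (Nat.mul_le_mul_left _ h3)
    _ = 1000000 * F.Z ^ 2 * K := by ring
    _ ≤ K * K := Nat.mul_le_mul_right K (h4.trans h2)
    _ = K ^ 2 := by ring

theorem num_R (hF : F.Ok) (hK : F.Big K) : (F.R * F.E K) ^ 2 ≤ K ^ 3 ∧ (F.X + 1) * (3 * (F.R * F.E K)) + 3 < K ^ 3 := by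
  have h0 := num_K hK
  have h1 := Z_ge F
  have h2 : F.Z ^ 4 ≤ K := hK
  have h3 := (num_E hF K).2.1
  obtain ⟨hX, _, _, _, _, _, _, _, hR, _⟩ := num_le hF
  have h4 : F.R * F.E K ≤ F.Z ^ 2 * K := by
    calc F.R * F.E K ≤ F.Z * (F.Z * K) := Nat.mul_le_mul hR h3
      _ = F.Z ^ 2 * K := by ring
  constructor
  · calc (F.R * F.E K) ^ 2 ≤ (F.Z ^ 2 * K) ^ 2 := Nat.pow_le_pow_left h4 2
      _ = F.Z ^ 4 * K ^ 2 := by ring
      _ ≤ K * K ^ 2 := Nat.mul_le_mul_right _ h2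
      _ = K ^ 3 := by ring
  · have h5 : F.Z ^ 3 ≤ K := le_trans (Nat.pow_le_pow_right (by omega) (by norm_num)) h2
    have h6 : (F.X + 1) * (3 * (F.R * F.E K)) ≤ 3 * K ^ 2 := by
      calc (F.X + 1) * (3 * (F.R * F.E K)) ≤ F.Z * (3 * (F.Z ^ 2 * K)) :=
            Nat.mul_le_mul hX (Nat.mul_le_mul_left _ h4)
        _ = 3 * (F.Z ^ 3 * K) := by ring
        _ ≤ 3 * (K * K) := Nat.mul_le_mul_left _ (Nat.mul_le_mul_right _ h5)
        _ = 3 * K ^ 2 := by ring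
    have h7 : 4 * K ^ 2 ≤ K ^ 3 := by
      calc 4 * K ^ 2 ≤ K * K ^ 2 := Nat.mul_le_mul_right _ (by omega)
        _ = K ^ 3 := by ring
    have h8 : 3 < K ^ 2 := lt_of_lt_of_le (by omega) (Nat.le_self_pow (by norm_num) K)
    omega

theorem num_pow (hF : F.Ok) (hK : F.Big K) : K ^ 20 ≤ 2 ^ K ∧ F.t * (F.Gp * F.E K) + 1 ≤ 2 ^ F.E K := by
  have h0 := num_K hK
  refine ⟨pow20_le (by omega), ?_⟩
  have h1 := (num_E hF K).1
  obtain ⟨_, _, _, _, _, _, _, _, _, hG, _⟩ := num_le hF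
  have h2 := (num_Z hK).2.2
  have h3 : F.t * F.Gp ≤ F.E K := by omega
  calc F.t * (F.Gp * F.E K) + 1 = F.t * F.Gp * F.E K + 1 := by rw [mul_assoc]
    _ ≤ F.E K * F.E K + 1 := Nat.add_le_add_right (Nat.mul_le_mul_right _ h3) 1
    _ = F.E K ^ 2 + 1 := by rw [sq]
    _ ≤ 2 ^ F.E K := sq_le_two_pow (by omega)

/-- the weights are not too small -/
theorem num_om (hF : F.Ok) (hK : F.Big K) : F.Q * (2 * (F.d + 1) * (K + 1)) ^ (F.d + 1) ≤ 2 ^ K := by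
  have h0 := num_K hK
  have h1 := Z_ge F
  have h2 : F.Z ^ 4 ≤ K := hK
  obtain ⟨_, hd, _, _, _, _, _, _, _, _, _, _, _, hQ, _, _⟩ := num_le hF
  have hZ0 : 0 < 4 * F.Z := by omega
  set y := K / (4 * F.Z) with hy
  have hy1 : y * (4 * F.Z) ≤ K := Nat.div_mul_le_self K _
  have hy2 : K < (y + 1) * (4 * F.Z) := by
    have h := Nat.div_add_mod K (4 * F.Z)
    have h' := Nat.mod_lt K hZ0
    rw [← hy] at h
    calc K = 4 * F.Z * y + K % (4 * F.Z) := h.symm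
      _ < 4 * F.Z * y + 4 * F.Z := Nat.add_lt_add_left h' _
      _ = (y + 1) * (4 * F.Z) := by ring
  have hZ3 : 4 * F.Z ≤ F.Z ^ 3 := by
    calc 4 * F.Z ≤ F.Z ^ 2 * F.Z := Nat.mul_le_mul_right _ (by nlinarith)
      _ = F.Z ^ 3 := by ring
  have hyZ : F.Z ≤ y := by
    rw [hy, Nat.le_div_iff_mul_le hZ0]
    calc F.Z * (4 * F.Z) ≤ F.Z * F.Z ^ 3 := Nat.mul_le_mul_left _ hZ3
      _ = F.Z ^ 4 := by ring
      _ ≤ K := h2
  have hK2 : K ≤ 2 ^ y := by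
    have h3 : (y + 1) * (4 * F.Z) ≤ 4 * y * (y + 1) := by
      calc (y + 1) * (4 * F.Z) ≤ (y + 1) * (4 * y) := Nat.mul_le_mul_left _ (by omega)
        _ = 4 * y * (y + 1) := by ring
    exact hy2.le.trans (h3.trans (four_sq_le (by omega)))
  have h5 : 2 * (F.d + 1) * (K + 1) ≤ K ^ 2 := by
    have h6 : 4 * F.Z ≤ K := le_trans hZ3 (le_trans (Nat.pow_le_pow_right (by omega) (by norm_num)) h2)
    calc 2 * (F.d + 1) * (K + 1) ≤ 2 * F.Z * (2 * K) := Nat.mul_le_mul (by omega) (by omega)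
      _ = 4 * F.Z * K := by ring
      _ ≤ K * K := Nat.mul_le_mul_right _ h6
      _ = K ^ 2 := by ring
  have hQK : F.Q ≤ K := hQ.trans (num_Z hK).2.2
  calc F.Q * (2 * (F.d + 1) * (K + 1)) ^ (F.d + 1) ≤ K * (K ^ 2) ^ (F.d + 1) :=
        Nat.mul_le_mul hQK (Nat.pow_le_pow_left h5 _)
    _ = K ^ (2 * F.d + 3) := by
        rw [← pow_mul, ← pow_succ']
        congr 1
    _ ≤ (2 ^ y) ^ (2 * F.d + 3) := Nat.pow_le_pow_left hK2 _
    _ = 2 ^ (y * (2 * F.d + 3)) := by rw [← pow_mul]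
    _ ≤ 2 ^ K := Nat.pow_le_pow_right (by norm_num)
        (le_trans (Nat.mul_le_mul_left y (by omega)) hy1)

end

end Pool.Agent.Helper76.LD7
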